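import Pool.Agent.Lib.MP_1fc36f_co.H52Main
import Pool.Agent.Lib.MP_1fc36f_co.H40Low
import Pool.Agent.Lib.MP_1fc36f_co.H61Up

namespace Pool.Agent.Results.MP_1fc36f_co.CubicOrder

open Pool.Agent.Lib.MP_1fc36f_co Pool.Agent.Lib.MP_1fc36f_co.H40

/-- For all large `n` the capture times of the connected planar graphs on `n` vertices with cop
number two have a largest value `m`, and `n ^ 3 / C ≤ m ≤ n ^ 3`. -/
theorem result : ∃ C n₀ : ℕ, ∀ n, n₀ ≤ n → ∃ m : ℕ,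
    IsGreatest {t | ∃ (V : Type) (_ : Fintype V) (G : SimpleGraph V), Fintype.card V = n ∧
      G.Connected ∧ Planar G ∧ copNumber G = 2 ∧ capt G = t} m ∧
    n ^ 3 ≤ C * m ∧ m ≤ n ^ 3 := by
  obtain ⟨C, n₀, h⟩ := H52.cubic_W (q := 1) (D := 8) (H₀ := 30) Nat.one_pos
    (fun K hK hH => H61.upper (by omega) hH)
    (fun K hK hH t ht => by
      have := H40L.lower (by omega) hH ht
      rwa [Nat.one_mul] at this)
  refine ⟨C, n₀, fun n hn => ?_⟩
  obtain ⟨⟨V, i, G, h1, h2, h3, h4, h5⟩, hu⟩ := h n hn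
  set S : Set ℕ := {t | ∃ (V : Type) (_ : Fintype V) (G : SimpleGraph V), Fintype.card V = n ∧
    G.Connected ∧ Planar G ∧ copNumber G = 2 ∧ capt G = t} with hS
  have hm : capt G ∈ S := ⟨V, i, G, h1, h2, h3, h4, rfl⟩
  have ub : ∀ t ∈ S, t ≤ n ^ 3 := by
    rintro t ⟨V, i, G, h1, -, -, h4, rfl⟩
    exact hu V i G h1 h4
  have bd : BddAbove S := ⟨n ^ 3, ub⟩
  have mem : sSup S ∈ S := Nat.sSup_mem ⟨_, hm⟩ bd
  exact ⟨sSup S, ⟨mem, fun t ht => le_csSup bd ht⟩,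
    h5.trans (Nat.mul_le_mul_left _ (le_csSup bd hm)), ub _ mem⟩

end Pool.Agent.Results.MP_1fc36f_co.CubicOrder
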