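import Pool.Agent.Lib.MP_1fc36f_co.H19Main

namespace Pool.Agent.Results.MP_1fc36f_co.TreewidthThree

open Pool.Agent.Lib.MP_1fc36f_co

theorem result (V : Type) [Fintype V] (G : SimpleGraph V) (hG : G.Connected)
    (h : TreewidthLE G 3) : TwoCopsCaptureWithin G (7 * Fintype.card V) := by
  classical
  exact capture_of_treewidth hG h

end Pool.Agent.Results.MP_1fc36f_co.TreewidthThree
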